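import Pool.Agent.W295.PR.Stm

/-! Project PR: commutators of the lower central series. -/

set_option autoImplicit false

namespace Pool.Agent.W381.PR.LCS

open Pool.Agent.W295.PR

/-- the three subgroups lemma modulo a normal subgroup -/
theorem three {G : Type} [Group G] (N H₁ H₂ H₃ : Subgroup G) [N.Normal]
    (h1 : ⁅⁅H₂, H₃⁆, H₁⁆ ≤ N) (h2 : ⁅⁅H₃, H₁⁆, H₂⁆ ≤ N) : ⁅⁅H₁, H₂⁆, H₃⁆ ≤ N := by
  have key : ∀ K : Subgroup G, K ≤ N ↔ K.map (QuotientGroup.mk' N) = ⊥ := by
    intro K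
    rw [Subgroup.map_eq_bot_iff, QuotientGroup.ker_mk']
  rw [key] at h1 h2 ⊢
  rw [Subgroup.map_commutator, Subgroup.map_commutator] at h1 h2 ⊢
  exact Subgroup.commutator_commutator_eq_bot_of_rotate h1 h2

theorem lcs_comm (G : Type) [Group G] (n : ℕ) : ∀ m : ℕ, ⁅lcs G m, lcs G n⁆ ≤ lcs G (m + n + 1) := by
  induction n with
  | zero =>
    intro m
    exact le_rfl
  | succ n ih =>
    intro m
    have hN : (lcs G (m + (n + 1) + 1)).Normal := inferInstance
    have e1 : lcs G (n + 1) = ⁅lcs G n, (⊤ : Subgroup G)⁆ := rfl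
    rw [Subgroup.commutator_comm (lcs G m) (lcs G (n + 1)), e1]
    refine three _ _ _ _ ?_ ?_
    · rw [Subgroup.commutator_comm (⊤ : Subgroup G) (lcs G m)]
      have h := ih (m + 1)
      rw [show m + 1 + n + 1 = m + (n + 1) + 1 by ring] at h
      exact h
    · exact Subgroup.commutator_mono (ih m) le_rfl

theorem main : S_LCS := by
  intro G _ m n x hx y hy
  exact lcs_comm G n m (Subgroup.commutator_mem_commutator hx hy)

end Pool.Agent.W381.PR.LCS
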